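import Pool.Agent.helper39.MT.Defs

/-!
# Maynard-Tao for linear forms, model part: further definitions
-/

namespace Pool.Agent.helper39.MT

open Finset

/-- Weighted sum over all finite sets. -/
noncomputable def SS {ι : Type*} [Fintype ι] [DecidableEq ι] (w : ι → ℝ) (f : Finset ι → ℝ) : ℝ :=
  ∑ S : Finset ι, f S * ∏ p ∈ S, w p

/-- The linear forms in the lower bound of the local quadratic form. -/
noncomputable def Zl {k : ℕ} (m : Fin k) (q : ℝ) (s t : Option (Fin k)) : ℝ :=
  match t with
  | none => if s = none then 1 else if s = some m then q else 0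
  | some i => if s = some i then 1 else 0

/-- The coefficients in the lower bound of the local quadratic form. -/
noncomputable def Hl {k : ℕ} (m : Fin k) (c a : ℝ) (t : Option (Fin k)) : ℝ :=
  match t with
  | none => c
  | some i => if i = m then 0 else c * a

section
variable {ι : Type*} [Fintype ι] [DecidableEq ι] {k : ℕ}

/-- The primes carrying a label. -/
def supp (σ : ι → Option (Fin k)) : Finset ι := {p | σ p ≠ none}

/-- The sieve weights in the variables `y`. -/
noncomputable def yy (l : ι → ℝ) (Λ : ℝ) (g : Finset ι → ℝ) (σ : ι → Option (Fin k)) : ℝ :=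
  (∏ i, g (cls σ i)) * (if ∑ p ∈ supp σ, l p ≤ Λ then 1 else 0)

/-- The linear forms in the lower bound, for a pattern `t` avoiding `m`. -/
noncomputable def zz (m : Fin k) (q : ι → ℝ) (y : (ι → Option (Fin k)) → ℝ)
    (t : ι → Option (Fin k)) : ℝ :=
  ∑ σ : ι → Option (Fin k), y σ * ∏ p, Zl m (q p) (σ p) (t p)

end

/-- `1/(p-1)`. -/
noncomputable def qP {P : Finset ℕ} (p : P) : ℝ := 1 / (((p : ℕ) : ℝ) - 1)

/-- `log p`. -/
noncomputable def lP {P : Finset ℕ} (p : P) : ℝ := Real.log ((p : ℕ) : ℝ)

/-- The step function of a set of primes. -/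
noncomputable def gP {P : Finset ℕ} (J : ℕ) (θ : ℝ) (S : Finset P) : ℝ := gJ J θ (∑ p ∈ S, lP p)

end Pool.Agent.helper39.MT
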