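import Pool.Agent.helper14.MT.Defs2
import Pool.Agent.helper51.MT.SA
import Pool.Agent.helper51.MT.SB

set_option autoImplicit false

/-! # Maynard-Tao, model part: the two quadratic forms (SAB) -/

namespace Pool.Agent.helper39.MT

open Finset

section SAB
variable {ι : Type*} [Fintype ι] [DecidableEq ι] {k : ℕ}

theorem form_upper (pr : ι → ℕ) (hp : ∀ p, 2 * (k : ℝ) + 2 ≤ pr p)
    (y : (ι → Option (Fin k)) → ℝ) :
    Ex (fun p => mu0 (pr p : ℝ)) (fun e => FF pr y e ^ 2)
      ≤ ∑ σ : ι → Option (Fin k),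
          (∏ p, (if σ p = none then 1 else (pr p : ℝ) / ((pr p : ℝ) - 1) ^ 2)) * y σ ^ 2 := by
  have hk0 : (0 : ℝ) ≤ k := Nat.cast_nonneg k
  have h := tensor (ι := ι) (Ω := Option (Fin k)) (S := Option (Fin k)) (T := Option (Fin k))
    (fun p s => if s = none then (1 : ℝ) else (pr p : ℝ) / ((pr p : ℝ) - 1) ^ 2)
    (fun p => mu0 (pr p : ℝ)) (fun _ s e => if s = e then (1 : ℝ) else 0)
    (fun p s e => Phi (pr p : ℝ) s e)
    (fun p e => by
      split_ifs
      · exact zero_le_one
      · have := hp p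
        positivity)
    (fun p t => by
      have h1 := hp p
      have h0 : (0 : ℝ) < pr p := by linarith
      cases t with
      | none =>
        simp only [mu0]
        rw [sub_nonneg, div_le_one h0]
        linarith
      | some i =>
        simp only [mu0]
        positivity)
    (fun p v => by
      refine (loc_upper (hp p) v).trans (le_of_eq ?_)
      refine sum_congr rfl fun s _ => ?_
      congr 2
      simp) y
  refine h.trans (le_of_eq ?_)
  refine sum_congr rfl fun e _ => ?_
  congr 2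
  have h1 : ∀ σ : ι → Option (Fin k), (∏ p, (if σ p = e p then (1 : ℝ) else 0))
      = if σ = e then 1 else 0 := by
    intro σ
    rw [prod_boole]
    simp [funext_iff]
  simp only [h1]
  simp

theorem form_lower (hk : 1 ≤ k) (pr : ι → ℕ) (hp : ∀ p, 2 * (k : ℝ) + 2 ≤ pr p) (m : Fin k)
    (y : (ι → Option (Fin k)) → ℝ) :
    ∑ t : ι → Option (Fin k),
        (∏ p, Hl m (1 - k / ((pr p : ℝ) - 1) ^ 2)
          (1 / ((pr p : ℝ) - 1) * (1 - 2 * k / ((pr p : ℝ) - 1))) (t p))
        * zz m (fun p => 1 / ((pr p : ℝ) - 1)) y t ^ 2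
      ≤ Ex (fun p => mu1 m (pr p : ℝ)) (fun e => FF pr y e ^ 2) := by
  have hk0 : (1 : ℝ) ≤ k := by exact_mod_cast hk
  refine tensor (ι := ι) (Ω := Option (Fin k)) (S := Option (Fin k)) (T := Option (Fin k))
    (fun p => mu1 m (pr p : ℝ))
    (fun p => Hl m (1 - k / ((pr p : ℝ) - 1) ^ 2)
          (1 / ((pr p : ℝ) - 1) * (1 - 2 * k / ((pr p : ℝ) - 1))))
    (fun p s e => Phi (pr p : ℝ) s e)
    (fun p s t => Zl m (1 / ((pr p : ℝ) - 1)) s t) ?_ ?_ ?_ y
  · intro p e
    have h1 := hp p
    have h0 : (0 : ℝ) < (pr p : ℝ) - 1 := by linarith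
    cases e with
    | none =>
      simp only [mu1]
      rw [sub_nonneg, div_le_one h0]
      linarith
    | some i =>
      simp only [mu1]
      split_ifs
      · exact le_rfl
      · positivity
  · intro p t
    have h1 := hp p
    have h0 : 2 * (k : ℝ) + 1 ≤ (pr p : ℝ) - 1 := by linarith
    have h00 : 0 < (pr p : ℝ) - 1 := by linarith
    have hc : 0 ≤ 1 - (k : ℝ) / ((pr p : ℝ) - 1) ^ 2 := by
      rw [sub_nonneg, div_le_one (by positivity)]
      nlinarith
    have ha : 0 ≤ 1 / ((pr p : ℝ) - 1) * (1 - 2 * k / ((pr p : ℝ) - 1)) := by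
      refine mul_nonneg (by positivity) ?_
      rw [sub_nonneg, div_le_one h00]
      linarith
    cases t with
    | none => exact hc
    | some i =>
      simp only [Hl]
      split_ifs
      · exact le_rfl
      · exact mul_nonneg hc ha
  · intro p v
    exact loc_lower hk (hp p) m v

end SAB

end Pool.Agent.helper39.MT
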